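import Pool.Agent.Helper59.NX2.BaseRatlA
import Pool.Agent.Helper5.NX2.Ratl

/-!
# Project NX2, A14: base, removal of the rational parts
-/

set_option autoImplicit false

open Finset
open scoped BigOperators ComplexConjugate

namespace Pool.Agent.Helper67.NX2

open Pool.Agent.Helper57.NX

theorem base_ratl (hES : ES0) (m : ℕ) (c : Fin (m + 1) → ℝ) (hc : Ex c) :
    ∃ eb : ℝ, 0 < eb ∧ ∀ (n : ℕ) (ε : ℝ), 0 < ε → ε ≤ eb →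
    ∃ x0 : ℝ, 0 < x0 ∧ ∃ C : ℕ, ∃ σ : ℝ, 0 < σ ∧ ∃ D0 : ℝ,
    ∀ (S : Sys (m + 1)) (N : ℕ) [NeZero N] (lam : ℕ), D0 ≤ S.D → IG S c N x0 lam →
    ∀ δ : ℝ, S.D ^ (-σ) ≤ δ → δ ≤ 1 / 2 → (lam : ℝ) ≤ δ⁻¹ →
    ∀ X : ℝ, S.Q * S.D ^ (c (Fin.last m) - 2 * eb) ≤ X →
    ∀ f : ZMod N → ℂ, Adm δ⁻¹ X f → ∀ q : ℕ, 1 ≤ q → (q : ℝ) ≤ δ⁻¹ ^ n →
    ∀ (θ : ZMod N → Fin m → ℝ) (E : Finset (ZMod N)), (∀ x i, |θ x i| ≤ δ⁻¹ ^ n / S.Q) →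
    ∀ K : ℕ, S.D ^ (1 - ε) ≤ (K : ℝ) + 1 → (K : ℝ) ≤ S.D ^ (1 - ε) →
    δ ^ n ≤ 𝔼 x, (if x ∈ E then locCorrq S c q f θ K x else 0) →
    ∃ q2 : ℕ, 1 ≤ q2 ∧ (q2 : ℝ) ≤ δ⁻¹ ^ C ∧
    ∃ (θ2 : ZMod N → Fin m → ℝ) (E2 : Finset (ZMod N)),
      (∀ x ∈ E2, ∀ i, |θ2 x i * S.P i.castSucc| ≤ S.D ^ (1 / 4 : ℝ)) ∧
      ∀ K2 : ℕ, 1 ≤ K2 → (K2 : ℝ) ≤ S.D ^ (1 - 2 * ε) →
        δ ^ C ≤ 𝔼 x, (if x ∈ E2 then locCorrq S c q2 f θ2 K2 x else 0) :=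
  base_ratl_of (fun {_} c hc hc0 a ε hε => ratl hES c hc hc0 a ε hε) m c hc

end Pool.Agent.Helper67.NX2
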