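import Pool.Agent.Helper67.NX2.Defs
import Pool.Agent.Helper5.NX.Basic

/-!
# Project NX2, A14: removal of the rational parts in the base

Everything with the statement of `ratl` as a hypothesis (`RatlStmt`).
-/

set_option autoImplicit false

open Finset
open scoped BigOperators ComplexConjugate

namespace Pool.Agent.Helper67.NX2

open Pool.Agent.Helper57.NX

noncomputable section

/-- The statement of `ratl`. -/
def RatlStmt : Prop :=
  ∀ {m : ℕ} (c : Fin m → ℝ), StrictMono c → (∀ i, 0 < c i) → ∀ (a ε : ℝ), 0 < ε →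
    ∃ x0 : ℝ, 0 < x0 ∧ ∃ C : ℕ, ∃ σ : ℝ, 0 < σ ∧ ∃ D0 : ℝ, ∀ D : ℝ, D0 ≤ D →
    ∀ ρ : ℝ, 0 ≤ ρ → ρ ≤ 1 → ∀ lam : ℕ, 1 ≤ lam → (∃ r : ℕ, ρ * lam = r) →
    ∀ δ : ℝ, D ^ (-σ) ≤ δ → δ ≤ 1 / 2 → (lam : ℝ) ≤ δ⁻¹ →
    ∀ v : Fin m → ℝ, (∀ i, |v i| ≤ D ^ a) →
    ∀ q k K : ℕ, 1 ≤ q → (q : ℝ) ≤ δ⁻¹ → D ≤ k → (k : ℝ) ≤ 3 * D → D ^ (1 - x0) ≤ K →
    (q : ℝ) * K ≤ D →
    δ ≤ ‖𝔼 j ∈ range K, e (∑ i, v i * ((((k + q * j : ℕ) : ℝ) + ρ) / D) ^ (c i))‖ →
    (∀ i, ¬ IsN (c i) → |v i| ≤ D ^ ε) ∧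
    ∃ q' : ℕ, 1 ≤ q' ∧ (q' : ℝ) ≤ δ⁻¹ ^ C ∧ ∀ (i : Fin m) (d : ℕ), c i = d →
      dint (q' * (v i / (lam * D) ^ d)) ≤ D ^ (ε - d)

/-! ### averages over intervals -/

private theorem expect_Ico59 {M : Type} [AddCommMonoid M] [Module ℚ≥0 M] (u T : ℕ) (g : ℕ → M) :
    𝔼 k ∈ Ico u (u + T), g k = 𝔼 i ∈ range T, g (u + i) := by
  unfold Finset.expect
  rw [Finset.sum_Ico_eq_sum_range, Nat.card_Ico, card_range, Nat.add_sub_cancel_left]

private theorem sum_shift59 {K : Type} [RCLike K] (F : ℕ → K) (hF : ∀ k, ‖F k‖ ≤ 1) (T j : ℕ) :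
    ∀ u : ℕ, ‖∑ i ∈ range T, F (u + i + j) - ∑ i ∈ range T, F (u + i)‖ ≤ 2 * j := by
  induction j with
  | zero => intro u; simp
  | succ j ih =>
    intro u
    have h1 : ∑ i ∈ range T, F (u + i + (j + 1)) - ∑ i ∈ range T, F (u + i + j)
        = F (u + T + j) - F (u + j) := by
      rw [← Finset.sum_sub_distrib]
      have h2 := Finset.sum_range_sub (fun i => F (u + i + j)) T
      simp only [Nat.add_zero] at h2
      rw [← h2]
      refine Finset.sum_congr rfl fun i _ => ?_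
      congr 2
      omega
    have h3 : ∑ i ∈ range T, F (u + i + (j + 1)) - ∑ i ∈ range T, F (u + i)
        = (F (u + T + j) - F (u + j)) + (∑ i ∈ range T, F (u + i + j) - ∑ i ∈ range T, F (u + i)) := by
      rw [← h1]; ring
    rw [h3]
    calc _ ≤ ‖F (u + T + j) - F (u + j)‖ + ‖∑ i ∈ range T, F (u + i + j)
          - ∑ i ∈ range T, F (u + i)‖ := norm_add_le _ _
      _ ≤ (1 + 1) + 2 * j := add_le_add ((norm_sub_le _ _).trans (add_le_add (hF _) (hF _))) (ih u)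
      _ = 2 * ((j + 1 : ℕ) : ℝ) := by push_cast; ring

private theorem expect_shift59 {K : Type} [RCLike K] (F : ℕ → K) (hF : ∀ k, ‖F k‖ ≤ 1)
    (T j u : ℕ) :
    ‖𝔼 i ∈ range T, F (u + i + j) - 𝔼 i ∈ range T, F (u + i)‖ ≤ 2 * j / T := by
  rw [expect_eq_sum_div_card, expect_eq_sum_div_card, ← sub_div, norm_div, card_range,
    RCLike.norm_natCast]
  exact div_le_div_of_nonneg_right (sum_shift59 F hF T j u) (Nat.cast_nonneg T)

/-- sliding windows along progressions -/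
private theorem sliding59 (G : ℕ → ℂ) (hG : ∀ k, ‖G k‖ ≤ 1) (u T q q' K K2 : ℕ) (hK : 1 ≤ K)
    (hK2 : 1 ≤ K2) :
    𝔼 i ∈ range T, ‖𝔼 j ∈ range K, G (u + i + q * j)‖ ≤
      𝔼 i ∈ range T, ‖𝔼 l ∈ range K2, G (u + i + q * q' * l)‖ +
        (2 * (q' * K2) / K + 2 * (q * K) / T) := by
  set H : ℕ → ℝ := fun k => ‖𝔼 l ∈ range K2, G (k + q * q' * l)‖ with hH
  have hH1 : ∀ k, ‖H k‖ ≤ 1 := by
    intro k
    rw [Real.norm_of_nonneg (norm_nonneg _)]
    exact norm_expect_le_of5 _ _ zero_le_one fun _ _ => hG _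
  have hne : (range K2).Nonempty := nonempty_range_iff.2 (by omega)
  have hneK : (range K).Nonempty := nonempty_range_iff.2 (by omega)
  have h1 : ∀ k : ℕ, ‖𝔼 j ∈ range K, G (k + q * j)‖ ≤
      𝔼 j ∈ range K, H (k + q * j) + 2 * (q' * K2) / K := by
    intro k
    have e1 : 𝔼 j ∈ range K, G (k + q * j) =
        𝔼 l ∈ range K2, 𝔼 j ∈ range K, G (k + q * j + q * q' * l)
        + 𝔼 l ∈ range K2, (𝔼 j ∈ range K, G (k + q * j) -
          𝔼 j ∈ range K, G (k + q * j + q * q' * l)) := by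
      rw [← expect_add_distrib]
      have : ∀ l ∈ range K2, 𝔼 j ∈ range K, G (k + q * j + q * q' * l)
          + (𝔼 j ∈ range K, G (k + q * j) - 𝔼 j ∈ range K, G (k + q * j + q * q' * l))
          = 𝔼 j ∈ range K, G (k + q * j) := fun l _ => by ring
      rw [expect_congr rfl this, expect_const hne]
    have e2 : ‖𝔼 l ∈ range K2, 𝔼 j ∈ range K, G (k + q * j + q * q' * l)‖ ≤
        𝔼 j ∈ range K, H (k + q * j) := by
      rw [expect_comm]
      exact norm_expect_le5 _ _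
    have e3 : ‖𝔼 l ∈ range K2, (𝔼 j ∈ range K, G (k + q * j) -
        𝔼 j ∈ range K, G (k + q * j + q * q' * l))‖ ≤ 2 * (q' * K2) / K := by
      refine norm_expect_le_of5 _ _ (by positivity) fun l hl => ?_
      rw [norm_sub_rev]
      have h5 := expect_shift59 (fun i => G (k + q * i)) (fun i => hG _) K (q' * l) 0
      have e4 : ∀ j ∈ range K, G (k + q * (0 + j + q' * l)) = G (k + q * j + q * q' * l) := by
        intro j _
        congr 1
        ring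
      have e5 : ∀ j ∈ range K, G (k + q * (0 + j)) = G (k + q * j) := by
        intro j _
        rw [Nat.zero_add]
      rw [expect_congr rfl e4, expect_congr rfl e5] at h5
      refine h5.trans ?_
      have : (l : ℝ) ≤ K2 := by exact_mod_cast (mem_range.1 hl).le
      push_cast
      gcongr
    rw [e1]
    exact (norm_add_le _ _).trans (add_le_add e2 e3)
  have h2 : 𝔼 i ∈ range T, 𝔼 j ∈ range K, H (u + i + q * j) ≤
      𝔼 i ∈ range T, H (u + i) + 2 * (q * K) / T := by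
    rw [expect_comm]
    refine expect_le hneK fun j hj => ?_
    have h3 := expect_shift59 H hH1 T (q * j) u
    rw [Real.norm_eq_abs] at h3
    have h4 := le_of_abs_le h3
    have h5 : (2 * ((q * j : ℕ) : ℝ) / T : ℝ) ≤ 2 * (q * K) / T := by
      have : (j : ℝ) ≤ K := by exact_mod_cast (mem_range.1 hj).le
      push_cast
      gcongr
    linarith
  rcases Nat.eq_zero_or_pos T with rfl | hT
  · simp only [range_zero, expect_empty]
    positivity
  have hneT : (range T).Nonempty := nonempty_range_iff.2 (by omega)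
  calc 𝔼 i ∈ range T, ‖𝔼 j ∈ range K, G (u + i + q * j)‖
      ≤ 𝔼 i ∈ range T, (𝔼 j ∈ range K, H (u + i + q * j) + 2 * (q' * K2) / K) :=
        expect_le_expect fun i _ => h1 (u + i)
    _ = 𝔼 i ∈ range T, 𝔼 j ∈ range K, H (u + i + q * j) + 2 * (q' * K2) / K := by
        rw [expect_add_distrib, expect_const hneT]
    _ ≤ _ := by linarith

/-! ### powers -/

private theorem rpow_bounds59 (γ ξ : ℝ) (h1 : 1 ≤ ξ) (h4 : ξ ≤ 4) :
    (4 : ℝ) ^ (-|γ|) ≤ ξ ^ γ ∧ ξ ^ γ ≤ (4 : ℝ) ^ |γ| := by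
  have h0 : 0 < ξ := by linarith
  constructor
  · calc (4 : ℝ) ^ (-|γ|) ≤ ξ ^ (-|γ|) := Real.rpow_le_rpow_of_nonpos h0 h4 (by simp)
      _ ≤ ξ ^ γ := Real.rpow_le_rpow_of_exponent_le h1 (neg_abs_le γ)
  · calc ξ ^ γ ≤ ξ ^ |γ| := Real.rpow_le_rpow_of_exponent_le h1 (le_abs_self γ)
      _ ≤ 4 ^ |γ| := Real.rpow_le_rpow h0.le h4 (abs_nonneg _)

private theorem mv59 (γ s s' : ℝ) (h1 : 1 ≤ s) (h : s < s') :
    ∃ ξ, s < ξ ∧ ξ < s' ∧ s' ^ γ - s ^ γ = γ * ξ ^ (γ - 1) * (s' - s) := by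
  obtain ⟨ξ, hξ, h2⟩ := exists_hasDerivAt_eq_slope (fun x => x ^ γ) (fun x => γ * x ^ (γ - 1)) h
    (fun x hx => (Real.continuousAt_rpow_const x γ
      (Or.inl (by have := hx.1; linarith))).continuousWithinAt)
    (fun x hx => Real.hasDerivAt_rpow_const (Or.inl (by have := hx.1; linarith)))
  refine ⟨ξ, hξ.1, hξ.2, ?_⟩
  have h3 : s' - s ≠ 0 := by linarith
  rw [h2, div_mul_cancel₀ _ h3]

/-- Lipschitz constant -/
private def Lc59 (γ : ℝ) : ℝ := |γ| * (4 : ℝ) ^ |γ - 1|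

private theorem Lc59_nonneg (γ : ℝ) : 0 ≤ Lc59 γ := by unfold Lc59; positivity

private theorem lip59 (γ s s' : ℝ) (h1 : 1 ≤ s) (h : s ≤ s') (h4 : s' ≤ 4) :
    |s' ^ γ - s ^ γ| ≤ Lc59 γ * (s' - s) := by
  rcases h.eq_or_lt with rfl | h
  · simp
  obtain ⟨ξ, h2, h3, h5⟩ := mv59 γ s s' h1 h
  rw [h5, abs_mul, abs_mul, abs_of_pos (sub_pos.2 h),
    abs_of_nonneg (Real.rpow_nonneg (by linarith) _)]
  unfold Lc59
  have := (rpow_bounds59 (γ - 1) ξ (by linarith) (by linarith)).2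
  have h6 := sub_pos.2 h
  gcongr

private theorem floor59 (x y : ℝ) : |((⌊x⌋ : ℝ) - ⌊y⌋) - (x - y)| ≤ 1 := by
  rw [abs_le]
  constructor <;> linarith [Int.floor_le x, Int.floor_le y, Int.lt_floor_add_one x,
    Int.lt_floor_add_one y]

/-! ### the sequences -/

section Seq
variable {m N : ℕ} [NeZero N] {S : Sys (m + 1)} {c : Fin (m + 1) → ℝ}

omit [NeZero N] in
private theorem t_mem59 {k : ℕ} (hD : 1 ≤ S.D) (h0 : 0 ≤ S.ρ) (h1 : S.ρ ≤ 1) (hk : S.D ≤ k)
    (hk3 : (k : ℝ) ≤ 3 * S.D) : 1 ≤ S.t k ∧ S.t k ≤ 4 := by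
  unfold Sys.t
  have hD0 : 0 < S.D := by linarith
  rw [le_div_iff₀ hD0, div_le_iff₀ hD0]
  constructor <;> linarith

private theorem t_add59 (k j : ℕ) : S.t (k + j) - S.t k = j / S.D := by
  unfold Sys.t
  rw [← sub_div]
  push_cast
  congr 1
  ring

private theorem tpow59 (γ : ℝ) {k j : ℕ} (hD : 1 ≤ S.D) (h0 : 0 ≤ S.ρ) (h1 : S.ρ ≤ 1)
    (hk : S.D ≤ k) (hk3 : ((k + j : ℕ) : ℝ) ≤ 3 * S.D) :
    |(S.t (k + j)) ^ γ - (S.t k) ^ γ| ≤ Lc59 γ * (j / S.D) := by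
  have hkj : (k : ℝ) ≤ (k + j : ℕ) := by exact_mod_cast Nat.le_add_right k j
  have e1 := t_mem59 hD h0 h1 hk (hkj.trans hk3)
  have e2 := t_mem59 hD h0 h1 (hk.trans hkj) hk3
  rw [← t_add59 k j]
  refine lip59 γ _ _ e1.1 ?_ e2.2
  have := t_add59 (S := S) k j
  have h3 : 0 ≤ (j : ℝ) / S.D := by positivity
  linarith

private theorem adiff59 (i : Fin (m + 1)) {k j : ℕ} (hD : 1 ≤ S.D) (h0 : 0 ≤ S.ρ) (h1 : S.ρ ≤ 1)
    (hP : 0 ≤ S.P i) (hk : S.D ≤ k) (hk3 : ((k + j : ℕ) : ℝ) ≤ 3 * S.D) :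
    |(S.a c i (k + j) : ℝ) - S.a c i k| ≤ Lc59 (c i) * (S.P i * (j / S.D)) + 1 := by
  unfold Sys.a
  have h2 := floor59 (S.P i * S.t (k + j) ^ c i) (S.P i * S.t k ^ c i)
  have h3 := tpow59 (c i) hD h0 h1 hk hk3
  have h4 : |S.P i * S.t (k + j) ^ c i - S.P i * S.t k ^ c i|
      ≤ Lc59 (c i) * (S.P i * (j / S.D)) := by
    rw [← mul_sub, abs_mul, abs_of_nonneg hP]
    calc _ ≤ S.P i * (Lc59 (c i) * (j / S.D)) := mul_le_mul_of_nonneg_left h3 hP
      _ = _ := by ring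
  rw [abs_le] at h2 h4 ⊢
  constructor <;> linarith [h2.1, h2.2, h4.1, h4.2]

end Seq

private theorem l1_two59 {N : ℕ} [NeZero N] {B X : ℝ} {f : ZMod N → ℂ} (h : TV B X f) (hX : 0 < X)
    (a b : ℤ) : 𝔼 x, ‖f (x + (a : ZMod N)) - f (x + (b : ZMod N))‖ ≤
      |(a : ℝ) - b| * (B * (1 / X + 1 / N)) := by
  have h1 := h.l1_shift hX (a - b)
  rw [← expect_shift (fun x => ‖f (x + ((a - b : ℤ) : ZMod N)) - f x‖) (b : ZMod N)] at h1
  rw [mul_assoc] at h1
  push_cast at h1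
  refine le_trans (le_of_eq (expect_congr rfl fun x _ => ?_)) h1
  congr 3
  ring

/-! ### windows -/

/-- the phase -/
private def ph59 {m : ℕ} (S : Sys (m + 1)) (c : Fin (m + 1) → ℝ) (v : Fin m → ℝ) (k : ℕ) : ℝ :=
  ∑ i : Fin m, v i * S.P i.castSucc * (S.t k) ^ (c i.castSucc)

section Win
variable {m N : ℕ} [NeZero N] {S : Sys (m + 1)} {c : Fin (m + 1) → ℝ}

private theorem locCorrq_eq59 (f : ZMod N → ℂ) (θ : ZMod N → Fin m → ℝ) (q K : ℕ) (x : ZMod N) :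
    locCorrq S c q f θ K x =
      𝔼 i ∈ range S.T, ‖𝔼 l ∈ range K, (f (x + (S.a c (Fin.last m) (S.u + i + q * l) : ZMod N)) *
        e (ph59 S c (θ x) (S.u + i + q * l)))‖ := by
  unfold locCorrq Sys.I
  rw [expect_Ico59]
  rfl

private theorem locCorrq_le59 (f : ZMod N → ℂ) (hf : ∀ x, ‖f x‖ ≤ 1) (θ : ZMod N → Fin m → ℝ)
    (q q' K K2 : ℕ) (hK : 1 ≤ K) (hK2 : 1 ≤ K2) (x : ZMod N) :
    locCorrq S c q f θ K x ≤ locCorrq S c (q * q') f θ K2 x +
      (2 * (q' * K2) / K + 2 * (q * K) / S.T) := by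
  rw [locCorrq_eq59, locCorrq_eq59]
  refine sliding59 (fun k => f (x + (S.a c (Fin.last m) k : ZMod N)) * e (ph59 S c (θ x) k)) ?_
    S.u S.T q q' K K2 hK hK2
  intro k
  rw [norm_mul, norm_e, mul_one]
  exact hf _

omit [NeZero N] in
private theorem win_large59 (f : ZMod N → ℂ) (hf : ∀ x, ‖f x‖ ≤ 1) (v : Fin m → ℝ)
    (q K2 : ℕ) (k : ℕ) (x : ZMod N) :
    ‖𝔼 l ∈ range K2, (f (x + (S.a c (Fin.last m) (k + q * l) : ZMod N)) *
      e (ph59 S c v (k + q * l)))‖ ≤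
      ‖𝔼 l ∈ range K2, e (ph59 S c v (k + q * l))‖ +
      𝔼 l ∈ range K2, ‖f (x + (S.a c (Fin.last m) (k + q * l) : ZMod N))
        - f (x + (S.a c (Fin.last m) k : ZMod N))‖ := by
  have h1 : 𝔼 l ∈ range K2, (f (x + (S.a c (Fin.last m) (k + q * l) : ZMod N)) *
      e (ph59 S c v (k + q * l)))
      = f (x + (S.a c (Fin.last m) k : ZMod N)) * 𝔼 l ∈ range K2, e (ph59 S c v (k + q * l)) +
        𝔼 l ∈ range K2, (f (x + (S.a c (Fin.last m) (k + q * l) : ZMod N))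
        - f (x + (S.a c (Fin.last m) k : ZMod N))) * e (ph59 S c v (k + q * l)) := by
    rw [mul_expect, ← expect_add_distrib]
    refine expect_congr rfl fun l _ => ?_
    ring
  rw [h1]
  refine (norm_add_le _ _).trans (add_le_add ?_ ?_)
  · rw [norm_mul]
    exact mul_le_of_le_one_left (norm_nonneg _) (hf _)
  · refine (norm_expect_le5 _ _).trans (le_of_eq (expect_congr rfl fun l _ => ?_))
    rw [norm_mul, norm_e, mul_one]

omit [NeZero N] in
/-- sizes -/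
private theorem sizes59 {x0 b X : ℝ} (hb : 0 ≤ b) (hD : 1 ≤ S.D) (hc0 : ∀ i, 0 < c i)
    (hG : Good S c N x0) (hX : S.Q * S.D ^ (c (Fin.last m) - b) ≤ X) :
    0 < X ∧ 0 < S.P (Fin.last m) ∧
      S.P (Fin.last m) * (1 / X + 1 / N) ≤ 2 * S.D ^ (x0 + b) ∧
      1 / X + 1 / (N : ℝ) ≤ 2 * S.D ^ (b - 2) := by
  have hD0 : 0 < S.D := by linarith
  have hQ : 0 < (S.Q : ℝ) := lt_of_lt_of_le (Real.rpow_pos_of_pos hD0 _) hG.Q1
  have hX0 : 0 < X := lt_of_lt_of_le (mul_pos hQ (Real.rpow_pos_of_pos hD0 _)) hX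
  have hP : 0 < S.P (Fin.last m) :=
    lt_of_lt_of_le (mul_pos hQ (Real.rpow_pos_of_pos hD0 _)) (hG.P1 _)
  have hN : 0 < (N : ℝ) := hQ.trans_le hG.N2
  refine ⟨hX0, hP, ?_, ?_⟩
  · have h1 : S.P (Fin.last m) * (1 / X) ≤ S.D ^ (x0 + b) := by
      rw [mul_one_div, div_le_iff₀ hX0]
      calc S.P (Fin.last m) ≤ S.Q * S.D ^ (c (Fin.last m) + x0) := hG.P2 _
        _ = S.D ^ (x0 + b) * (S.Q * S.D ^ (c (Fin.last m) - b)) := by
            rw [mul_left_comm, ← Real.rpow_add hD0]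
            congr 2
            ring
        _ ≤ S.D ^ (x0 + b) * X := mul_le_mul_of_nonneg_left hX (Real.rpow_nonneg hD0.le _)
    have h2 : S.P (Fin.last m) * (1 / N) ≤ S.D ^ (x0 + b) := by
      rw [mul_one_div, div_le_iff₀ hN]
      calc S.P (Fin.last m) ≤ N * S.D ^ x0 := hG.N1 _
        _ ≤ N * S.D ^ (x0 + b) := mul_le_mul_of_nonneg_left
            (Real.rpow_le_rpow_of_exponent_le hD (by linarith)) hN.le
        _ = _ := mul_comm _ _
    rw [mul_add]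
    linarith
  · have h1 : 1 / X ≤ S.D ^ (b - 2) := by
      rw [div_le_iff₀ hX0]
      calc (1 : ℝ) ≤ S.D ^ (c (Fin.last m)) :=
            Real.one_le_rpow hD (hc0 _).le
        _ = S.D ^ (b - 2) * (S.D ^ (2 : ℝ) * S.D ^ (c (Fin.last m) - b)) := by
            rw [← Real.rpow_add hD0, ← Real.rpow_add hD0]
            congr 1
            ring
        _ ≤ S.D ^ (b - 2) * (S.Q * S.D ^ (c (Fin.last m) - b)) := by
            have := hG.Q1
            have h5 := Real.rpow_nonneg hD0.le (c (Fin.last m) - b)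
            have h6 := Real.rpow_nonneg hD0.le (b - 2)
            exact mul_le_mul_of_nonneg_left (mul_le_mul_of_nonneg_right this h5) h6
        _ ≤ S.D ^ (b - 2) * X := mul_le_mul_of_nonneg_left hX (Real.rpow_nonneg hD0.le _)
    have h2 : 1 / (N : ℝ) ≤ S.D ^ (b - 2) := by
      rw [div_le_iff₀ hN]
      calc (1 : ℝ) ≤ S.D ^ b := Real.one_le_rpow hD hb
        _ = S.D ^ (b - 2) * S.D ^ (2 : ℝ) := by
            rw [← Real.rpow_add hD0]
            congr 1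
            ring
        _ ≤ S.D ^ (b - 2) * N := mul_le_mul_of_nonneg_left (hG.Q1.trans hG.N2)
            (Real.rpow_nonneg hD0.le _)
    linarith

end Win

/-! ### changing the phases -/

/-- the integer part of the phase is constant along the progression -/
private theorem phase_int59 (b : ℤ) (q' n M : ℕ) (hq' : 1 ≤ q') (d : ℕ) :
    ∃ z : ℤ, (b : ℝ) / q' * ((n + q' * M : ℕ) : ℝ) ^ d = (b : ℝ) / q' * (n : ℝ) ^ d + z := by
  have h1 : ((q' : ℤ)) ∣ ((n + q' * M : ℕ) : ℤ) ^ d - (n : ℤ) ^ d := by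
    have h2 : ((n + q' * M : ℕ) : ℤ) - n ∣ ((n + q' * M : ℕ) : ℤ) ^ d - (n : ℤ) ^ d :=
      sub_dvd_pow_sub_pow _ _ d
    refine dvd_trans ?_ h2
    push_cast
    exact ⟨M, by ring⟩
  obtain ⟨w, hw⟩ := h1
  refine ⟨b * w, ?_⟩
  have h3 : ((n + q' * M : ℕ) : ℝ) ^ d = (n : ℝ) ^ d + q' * w := by
    have h4 : ((n + q' * M : ℕ) : ℤ) ^ d = (n : ℤ) ^ d + q' * w := by linarith
    exact_mod_cast h4
  rw [h3]
  have hq0 : (q' : ℝ) ≠ 0 := by
    have : 0 < (q' : ℝ) := by exact_mod_cast hq'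
    exact this.ne'
  push_cast
  field_simp

/-- the corrected phases -/
private def th59 {m : ℕ} (S : Sys (m + 1)) (c : Fin (m + 1) → ℝ) (q' : ℕ) (θ : Fin m → ℝ)
    (i : Fin m) : ℝ := by
  classical exact if IsN (c i.castSucc) then θ i - (round (q' * (θ i * S.Q)) : ℝ) / q' / S.Q else θ i

section Change
variable {m N : ℕ} [NeZero N] {S : Sys (m + 1)} {c : Fin (m + 1) → ℝ}

omit [NeZero N] in
private theorem phase_shift59 {x0 : ℝ} {lam : ℕ} (hG : IG S c N x0 lam) (hD : 0 < S.D)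
    (hQ : 0 < (S.Q : ℝ)) (θ : Fin m → ℝ) (q q' k : ℕ) (hq' : 1 ≤ q') :
    ∃ w : ℝ, ∀ l : ℕ, ∃ z : ℤ,
      ph59 S c θ (k + q * q' * l) = ph59 S c (th59 S c q' θ) (k + q * q' * l) + w + z := by
  classical
  obtain ⟨r, hr⟩ := hG.rho
  have h1 : ∀ i : Fin m, ∃ w : ℝ, ∀ l : ℕ, ∃ z : ℤ,
      θ i * S.P i.castSucc * (S.t (k + q * q' * l)) ^ (c i.castSucc) =
      th59 S c q' θ i * S.P i.castSucc * (S.t (k + q * q' * l)) ^ (c i.castSucc) + w + z := by
    intro i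
    by_cases hN : IsN (c i.castSucc)
    · obtain ⟨d, hd⟩ := hN
      set b : ℤ := round (q' * (θ i * S.Q)) with hb
      refine ⟨(b : ℝ) / q' * ((lam * k + r : ℕ) : ℝ) ^ d, fun l => ?_⟩
      obtain ⟨z, hz⟩ := phase_int59 b q' (lam * k + r) (lam * (q * l)) hq' d
      refine ⟨z, ?_⟩
      have h2 : th59 S c q' θ i = θ i - (b : ℝ) / q' / S.Q := by
        unfold th59
        rw [if_pos ⟨d, hd⟩]
      rw [h2, add_assoc, ← hz, hd, Real.rpow_natCast, hG.Pint _ d hd]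
      have h3 : (((lam * k + r) + q' * (lam * (q * l)) : ℕ) : ℝ) =
          lam * S.D * S.t (k + q * q' * l) := by
        unfold Sys.t
        rw [mul_assoc, mul_div_cancel₀ _ hD.ne']
        push_cast
        rw [← hr]
        ring
      rw [h3, mul_pow]
      field_simp
      ring
    · refine ⟨0, fun l => ⟨0, ?_⟩⟩
      have h2 : th59 S c q' θ i = θ i := by
        unfold th59
        rw [if_neg hN]
      rw [h2]
      simp
  choose w hw using h1
  refine ⟨∑ i, w i, fun l => ?_⟩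
  choose z hz using fun i => hw i l
  refine ⟨∑ i, z i, ?_⟩
  unfold ph59
  rw [Finset.sum_congr rfl fun i _ => hz i, Finset.sum_add_distrib, Finset.sum_add_distrib]
  push_cast
  rfl

private theorem locCorrq_change59 {x0 : ℝ} {lam : ℕ} (hG : IG S c N x0 lam) (hD : 0 < S.D)
    (hQ : 0 < (S.Q : ℝ)) (f : ZMod N → ℂ) (θ : ZMod N → Fin m → ℝ) (q q' K : ℕ) (hq' : 1 ≤ q')
    (x : ZMod N) : locCorrq S c (q * q') f θ K x =
      locCorrq S c (q * q') f (fun x => th59 S c q' (θ x)) K x := by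
  rw [locCorrq_eq59, locCorrq_eq59]
  refine expect_congr rfl fun i _ => ?_
  obtain ⟨w, hw⟩ := phase_shift59 hG hD hQ (θ x) q q' (S.u + i) hq'
  have h1 : ∀ l ∈ range K, f (x + (S.a c (Fin.last m) (S.u + i + q * q' * l) : ZMod N)) *
      e (ph59 S c (θ x) (S.u + i + q * q' * l)) =
      f (x + (S.a c (Fin.last m) (S.u + i + q * q' * l) : ZMod N)) *
      e (ph59 S c (th59 S c q' (θ x)) (S.u + i + q * q' * l)) * e w := by
    intro l _
    obtain ⟨z, hz⟩ := hw l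
    rw [hz, e_add, e_add, e_int]
    ring
  rw [expect_congr rfl h1, ← expect_mul, norm_mul, norm_e, mul_one]

end Change

/-! ### the main theorem -/

/-- eventual inequality -/
private theorem ev59 (A τ : ℝ) (h : 0 < τ) : ∀ᶠ D : ℝ in Filter.atTop, A ≤ D ^ τ :=
  (tendsto_rpow_atTop h).eventually_ge_atTop A

theorem base_ratl_of (hR : RatlStmt) (m : ℕ) (c : Fin (m + 1) → ℝ) (hc : Ex c) :
    ∃ eb : ℝ, 0 < eb ∧ ∀ (n : ℕ) (ε : ℝ), 0 < ε → ε ≤ eb →
    ∃ x0 : ℝ, 0 < x0 ∧ ∃ C : ℕ, ∃ σ : ℝ, 0 < σ ∧ ∃ D0 : ℝ,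
    ∀ (S : Sys (m + 1)) (N : ℕ) [NeZero N] (lam : ℕ), D0 ≤ S.D → IG S c N x0 lam →
    ∀ δ : ℝ, S.D ^ (-σ) ≤ δ → δ ≤ 1 / 2 → (lam : ℝ) ≤ δ⁻¹ →
    ∀ X : ℝ, S.Q * S.D ^ (c (Fin.last m) - 2 * eb) ≤ X →
    ∀ f : ZMod N → ℂ, Adm δ⁻¹ X f → ∀ q : ℕ, 1 ≤ q → (q : ℝ) ≤ δ⁻¹ ^ n →
    ∀ (θ : ZMod N → Fin m → ℝ) (E : Finset (ZMod N)), (∀ x i, |θ x i| ≤ δ⁻¹ ^ n / S.Q) →
    ∀ K : ℕ, S.D ^ (1 - ε) ≤ (K : ℝ) + 1 → (K : ℝ) ≤ S.D ^ (1 - ε) →
    δ ^ n ≤ 𝔼 x, (if x ∈ E then locCorrq S c q f θ K x else 0) →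
    ∃ q2 : ℕ, 1 ≤ q2 ∧ (q2 : ℝ) ≤ δ⁻¹ ^ C ∧
    ∃ (θ2 : ZMod N → Fin m → ℝ) (E2 : Finset (ZMod N)),
      (∀ x ∈ E2, ∀ i, |θ2 x i * S.P i.castSucc| ≤ S.D ^ (1 / 4 : ℝ)) ∧
      ∀ K2 : ℕ, 1 ≤ K2 → (K2 : ℝ) ≤ S.D ^ (1 - 2 * ε) →
        δ ^ C ≤ 𝔼 x, (if x ∈ E2 then locCorrq S c q2 f θ2 K2 x else 0) := by
  classical
  have hcm : StrictMono c := fun i j hij => by
    have := hc.gap i j hij
    linarith
  have hc0 : ∀ i, 0 < c i := fun i => by
    have := hc.two i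
    linarith
  obtain ⟨xr, hxr, Cr, σr, hσr, Dr, HR⟩ := hR (fun i : Fin m => c i.castSucc)
    (hcm.comp (Fin.strictMono_castSucc)) (fun i => hc0 _) (c (Fin.last m) + 3) (1 / 16)
    (by norm_num)
  set y := min xr 1 with hy
  have hy0 : 0 < y := lt_min hxr one_pos
  have hy1 : y ≤ 1 := min_le_right _ _
  have hyr : y ≤ xr := min_le_left _ _
  refine ⟨y / 16, by positivity, fun n ε hε hεy => ⟨ε / 2, by positivity, ?_⟩⟩
  set cl := c (Fin.last m) with hcl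
  have hcl0 : 0 < cl := hc0 _
  set L := Lc59 cl with hL
  have hL0 : 0 ≤ L := Lc59_nonneg _
  set C1 : ℕ := n + 1 + (n + 3) * Cr with hC1
  set B : ℕ := (n + 1) + (n + 3) * Cr + C1 with hB
  obtain ⟨σ, hσ0, hσ1, hσ2, hσ3, hσ4⟩ : ∃ σ : ℝ, 0 < σ ∧ σ * B ≤ ε / 4 ∧ σ * (n + 3) ≤ σr ∧
      σ * n ≤ y / 2 ∧ σ * cl ≤ 3 / 16 := by
    refine ⟨min (ε / 4 / (B + 1)) (min (σr / (n + 3)) (min (y / 2 / (n + 1)) (3 / 16 / (cl + 1)))),
      by positivity, ?_, ?_, ?_, ?_⟩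
    · have h1 : min (ε / 4 / (B + 1)) (min (σr / (n + 3)) (min (y / 2 / (n + 1))
          (3 / 16 / (cl + 1)))) ≤ ε / 4 / (B + 1) := min_le_left _ _
      have h2 := mul_le_mul_of_nonneg_right h1 (Nat.cast_nonneg (α := ℝ) B)
      refine h2.trans ?_
      rw [div_mul_eq_mul_div, div_le_iff₀ (by positivity)]
      exact mul_le_mul_of_nonneg_left (by linarith) (by positivity)
    · have h1 : min (ε / 4 / (B + 1)) (min (σr / (n + 3)) (min (y / 2 / (n + 1))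
          (3 / 16 / (cl + 1)))) ≤ σr / (n + 3) := (min_le_right _ _).trans (min_le_left _ _)
      have h2 := mul_le_mul_of_nonneg_right h1 (show (0 : ℝ) ≤ n + 3 by positivity)
      refine h2.trans (le_of_eq ?_)
      rw [div_mul_cancel₀]
      positivity
    · have h1 : min (ε / 4 / (B + 1)) (min (σr / (n + 3)) (min (y / 2 / (n + 1))
          (3 / 16 / (cl + 1)))) ≤ y / 2 / (n + 1) :=
        (min_le_right _ _).trans ((min_le_right _ _).trans (min_le_left _ _))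
      have h2 := mul_le_mul_of_nonneg_right h1 (Nat.cast_nonneg (α := ℝ) n)
      refine h2.trans ?_
      rw [div_mul_eq_mul_div, div_le_iff₀ (by positivity)]
      exact mul_le_mul_of_nonneg_left (by linarith) (by positivity)
    · have h1 : min (ε / 4 / (B + 1)) (min (σr / (n + 3)) (min (y / 2 / (n + 1))
          (3 / 16 / (cl + 1)))) ≤ 3 / 16 / (cl + 1) :=
        (min_le_right _ _).trans ((min_le_right _ _).trans (min_le_right _ _))
      have h2 := mul_le_mul_of_nonneg_right h1 hcl0.le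
      refine h2.trans ?_
      rw [div_mul_eq_mul_div, div_le_iff₀ (by positivity)]
      exact mul_le_mul_of_nonneg_left (by linarith) (by positivity)
  have hev : ∀ᶠ D : ℝ in Filter.atTop, Dr ≤ D ∧ 1 ≤ D ∧ 16 * (8 + 2 * L) ≤ D ^ (ε / 4) ∧
      2 ≤ D ^ (1 - ε) ∧ 2 ≤ D ^ (y / 2) := by
    filter_upwards [Filter.eventually_ge_atTop Dr, Filter.eventually_ge_atTop (1 : ℝ),
      ev59 (16 * (8 + 2 * L)) (ε / 4) (by positivity), ev59 2 (1 - ε) (by linarith),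
      ev59 2 (y / 2) (by positivity)] with D h1 h2 h3 h4 h5
    exact ⟨h1, h2, h3, h4, h5⟩
  obtain ⟨D0, hD0⟩ := Filter.eventually_atTop.1 hev
  refine ⟨C1 + 1, σ, hσ0, D0, ?_⟩
  intro S N _ lam hD hIG δ hδ1 hδ2 hlam X hX f hf q hq1 hq2 θ E hθ K hK1 hK2 hmain
  obtain ⟨hDr, hD1, e1, e2, e3⟩ := hD0 S.D hD
  have hDp : 0 < S.D := by linarith
  have hG := hIG.good
  have hQ0 : 0 < (S.Q : ℝ) := lt_of_lt_of_le (Real.rpow_pos_of_pos hDp _) hG.Q1
  obtain ⟨hX0, hP0, hPW, hW⟩ := sizes59 (b := 2 * (y / 16)) (by positivity) hD1 hc0 hG hX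
  have hN : 0 < (N : ℝ) := by exact_mod_cast Nat.pos_of_ne_zero (NeZero.ne N)
  have hδ0 : 0 < δ := lt_of_lt_of_le (Real.rpow_pos_of_pos hDp _) hδ1
  have hδi1 : 1 ≤ δ⁻¹ := by rw [one_le_inv₀ hδ0]; linarith
  set G := S.D ^ σ with hGdef
  have hG1 : 1 ≤ G := Real.one_le_rpow hD1 hσ0.le
  have hG0 : 0 < G := by linarith
  have hδG : δ⁻¹ ≤ G := by
    rw [Real.rpow_neg hDp.le, ← hGdef] at hδ1
    rw [inv_le_comm₀ hδ0 hG0]
    exact hδ1
  have hGδ : G⁻¹ ≤ δ := by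
    rw [inv_le_comm₀ hG0 hδ0]; exact hδG
  have hGpow : ∀ b : ℕ, G ^ b = S.D ^ (σ * b) := by
    intro b
    rw [hGdef, ← Real.rpow_natCast, ← Real.rpow_mul hDp.le]
  have hDτ : 0 < S.D ^ (-(ε / 2)) := Real.rpow_pos_of_pos hDp _
  have hδC0 : 0 < δ ^ C1 := pow_pos hδ0 _
  -- all errors are small
  have small : ∀ (A : ℝ) (b : ℕ), 0 ≤ A → A ≤ 8 + 2 * L → b + C1 ≤ B →
      A * S.D ^ (-(ε / 2)) * G ^ b ≤ δ ^ C1 / 16 := by
    intro A b hA0 hA hb
    have h1 : (G⁻¹) ^ C1 ≤ δ ^ C1 := pow_le_pow_left₀ (inv_nonneg.2 hG0.le) hGδ _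
    have h2 : G ^ (b + C1) ≤ S.D ^ (ε / 4) := by
      refine (pow_le_pow_right₀ hG1 hb).trans ?_
      rw [hGpow]
      exact Real.rpow_le_rpow_of_exponent_le hD1 hσ1
    have h3 : 16 * A * G ^ (b + C1) ≤ S.D ^ (ε / 2) := by
      have h4 : S.D ^ (ε / 2) = S.D ^ (ε / 4) * S.D ^ (ε / 4) := by
        rw [← Real.rpow_add hDp]; congr 1; ring
      rw [h4]
      exact mul_le_mul (by linarith) h2 (by positivity) (by positivity)
    have h5 : A * S.D ^ (-(ε / 2)) * G ^ b ≤ (G⁻¹) ^ C1 / 16 := by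
      have h6 : A * S.D ^ (-(ε / 2)) * G ^ b = A * G ^ b / S.D ^ (ε / 2) := by
        rw [Real.rpow_neg hDp.le]; ring
      have h7 : (G⁻¹) ^ C1 / 16 = 1 / (16 * G ^ C1) := by
        rw [inv_pow]; field_simp
      rw [h6, h7, div_le_div_iff₀ (Real.rpow_pos_of_pos hDp _) (by positivity), one_mul]
      refine le_trans (le_of_eq ?_) h3
      rw [pow_add]
      ring
    linarith
  -- sizes
  have hq' : (q : ℝ) ≤ G ^ n := hq2.trans (pow_le_pow_left₀ (by positivity) hδG _)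
  have hq0 : (0 : ℝ) < q := by exact_mod_cast hq1
  set K1 := ⌊S.D ^ (1 - y / 2)⌋₊ with hK1d
  have hK1u : (K1 : ℝ) ≤ S.D ^ (1 - y / 2) := Nat.floor_le (Real.rpow_nonneg hDp.le _)
  have h1y : 1 ≤ S.D ^ (1 - y) := Real.one_le_rpow hD1 (by linarith)
  have hK1l : S.D ^ (1 - y) ≤ K1 := by
    have h1 := Nat.lt_floor_add_one (S.D ^ (1 - y / 2))
    have h2 : S.D ^ (1 - y / 2) = S.D ^ (1 - y) * S.D ^ (y / 2) := by
      rw [← Real.rpow_add hDp]; congr 1; ring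
    have h3 : 2 * S.D ^ (1 - y) ≤ S.D ^ (1 - y / 2) := by
      rw [h2, mul_comm (2 : ℝ)]
      exact mul_le_mul_of_nonneg_left e3 (by linarith)
    linarith
  have hK1one : 1 ≤ K1 := by exact_mod_cast h1y.trans hK1l
  have hKhalf : S.D ^ (1 - ε) / 2 ≤ K := by linarith
  have hK0 : 0 < (K : ℝ) := lt_of_lt_of_le (by positivity) hKhalf
  have hKone : 1 ≤ K := by exact_mod_cast hK0
  have hT0 : 0 < (S.T : ℝ) := lt_of_lt_of_le (Real.rpow_pos_of_pos hDp _) hG.T1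
  have hTne : (range S.T).Nonempty := nonempty_range_iff.2 (by
    rintro h0; rw [h0] at hT0; simp at hT0)
  have hqK1 : (q : ℝ) * K1 ≤ S.D := by
    calc (q : ℝ) * K1 ≤ G ^ n * S.D ^ (1 - y / 2) := mul_le_mul hq' hK1u (by positivity) (by positivity)
      _ = S.D ^ (σ * n + (1 - y / 2)) := by rw [hGpow, ← Real.rpow_add hDp]
      _ ≤ S.D ^ (1 : ℝ) := Real.rpow_le_rpow_of_exponent_le hD1 (by linarith)
      _ = S.D := Real.rpow_one _
  have hKinv : ∀ a : ℝ, S.D ^ a / K ≤ 2 * S.D ^ (a - (1 - ε)) := by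
    intro a
    rw [div_le_iff₀ hK0]
    calc S.D ^ a = 2 * S.D ^ (a - (1 - ε)) * (S.D ^ (1 - ε) / 2) := by
          rw [Real.rpow_sub hDp]
          have := (Real.rpow_pos_of_pos hDp (1 - ε)).ne'
          field_simp
      _ ≤ _ := mul_le_mul_of_nonneg_left hKhalf (by positivity)
  have hqKT : (q : ℝ) * K / S.T ≤ S.D ^ (-(ε / 2)) * G ^ n := by
    rw [div_le_iff₀ hT0]
    calc (q : ℝ) * K ≤ G ^ n * S.D ^ (1 - ε) := mul_le_mul hq' hK2 (by positivity) (by positivity)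
      _ = S.D ^ (-(ε / 2)) * G ^ n * S.D ^ (1 - ε / 2) := by
          rw [mul_comm (S.D ^ (-(ε / 2))) (G ^ n), mul_assoc, ← Real.rpow_add hDp]
          congr 2
          ring
      _ ≤ _ := mul_le_mul_of_nonneg_left hG.T1 (by positivity)
  -- the first error
  have err1 : 2 * (((1 : ℕ) : ℝ) * K1) / K + 2 * ((q : ℝ) * K) / S.T ≤
      4 * S.D ^ (-(ε / 2)) + 2 * S.D ^ (-(ε / 2)) * G ^ n := by
    have h1 : 2 * (((1 : ℕ) : ℝ) * K1) / K ≤ 4 * S.D ^ (-(ε / 2)) := by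
      calc 2 * (((1 : ℕ) : ℝ) * K1) / K ≤ 2 * (S.D ^ (1 - y / 2) / K) := by
            rw [Nat.cast_one, one_mul, mul_div_assoc]
            exact mul_le_mul_of_nonneg_left (div_le_div_of_nonneg_right hK1u hK0.le) (by norm_num)
        _ ≤ 2 * (2 * S.D ^ (1 - y / 2 - (1 - ε))) :=
            mul_le_mul_of_nonneg_left (hKinv _) (by norm_num)
        _ = 4 * S.D ^ (ε - y / 2) := by
            have : 1 - y / 2 - (1 - ε) = ε - y / 2 := by ring
            rw [this]; ring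
        _ ≤ 4 * S.D ^ (-(ε / 2)) := mul_le_mul_of_nonneg_left
            (Real.rpow_le_rpow_of_exponent_le hD1 (by linarith)) (by norm_num)
    have h2 : 2 * ((q : ℝ) * K) / S.T ≤ 2 * S.D ^ (-(ε / 2)) * G ^ n := by
      rw [mul_div_assoc, mul_assoc]
      exact mul_le_mul_of_nonneg_left hqKT (by norm_num)
    linarith
  set δr := δ ^ (n + 3) with hδr
  have hδr0 : 0 < δr := pow_pos hδ0 _
  have hδr8 : δr ≤ δ ^ n / 8 := by
    rw [hδr, pow_add]
    have : δ ^ 3 ≤ 1 / 8 := by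
      calc δ ^ 3 ≤ (1 / 2) ^ 3 := pow_le_pow_left₀ hδ0.le hδ2 3
        _ = 1 / 8 := by norm_num
    have h9 := mul_le_mul_of_nonneg_left this (pow_pos hδ0 n).le
    linarith
  set V : ZMod N → ℕ → ℝ := fun x k => ‖𝔼 l ∈ range K1, e (ph59 S c (θ x) (k + q * l))‖ with hV
  set E1 := E.filter (fun x => ∃ i ∈ range S.T, δr ≤ V x (S.u + i)) with hE1
  set W : ZMod N → ℕ → ℝ := fun x k => 𝔼 l ∈ range K1,
    ‖f (x + (S.a c (Fin.last m) (k + q * l) : ZMod N)) - f (x + (S.a c (Fin.last m) k : ZMod N))‖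
    with hWd
  have hW0 : ∀ x k, 0 ≤ W x k := fun x k => expect_nonneg fun l _ => norm_nonneg _
  set err := 2 * (((1 : ℕ) : ℝ) * K1) / K + 2 * ((q : ℝ) * K) / S.T with herr
  have herr0 : 0 ≤ err := by positivity
  have hLnn : ∀ x, 0 ≤ locCorrq S c q f θ K x := fun x => expect_nonneg fun _ _ => norm_nonneg _
  have key : ∀ x : ZMod N, (if x ∈ E then locCorrq S c q f θ K x else 0) ≤
      (if x ∈ E1 then locCorrq S c q f θ K x else 0) +
        ((δr + err) + 𝔼 i ∈ range S.T, W x (S.u + i)) := by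
    intro x
    have hnn : 0 ≤ 𝔼 i ∈ range S.T, W x (S.u + i) := expect_nonneg fun i _ => hW0 _ _
    by_cases hx : x ∈ E
    · by_cases hx1 : x ∈ E1
      · rw [if_pos hx, if_pos hx1]
        linarith
      · rw [if_pos hx, if_neg hx1, zero_add]
        have h1 : ∀ i ∈ range S.T, V x (S.u + i) < δr := by
          intro i hi
          by_contra h2
          rw [not_lt] at h2
          exact hx1 (mem_filter.2 ⟨hx, i, hi, h2⟩)
        have h2 := locCorrq_le59 (S := S) (c := c) f hf.bdd θ q 1 K K1 hKone hK1one x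
        rw [mul_one] at h2
        refine h2.trans ?_
        rw [locCorrq_eq59]
        have h3 : 𝔼 i ∈ range S.T, ‖𝔼 l ∈ range K1,
            (f (x + (S.a c (Fin.last m) (S.u + i + q * l) : ZMod N)) *
              e (ph59 S c (θ x) (S.u + i + q * l)))‖ ≤
            𝔼 i ∈ range S.T, (δr + W x (S.u + i)) := by
          refine expect_le_expect fun i hi => ?_
          refine (win_large59 f hf.bdd (θ x) q K1 (S.u + i) x).trans (add_le_add ?_ le_rfl)
          exact (h1 i hi).le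
        rw [expect_add_distrib, expect_const hTne] at h3
        linarith
    · rw [if_neg hx]
      have hx1 : x ∉ E1 := fun h => hx (mem_filter.1 h).1
      rw [if_neg hx1]
      positivity
  -- the average of W
  have hWav : 𝔼 x : ZMod N, 𝔼 i ∈ range S.T, W x (S.u + i) ≤
      (2 * L + 2) * S.D ^ (-(ε / 2)) * G ^ (n + 1) := by
    have hpos : 0 ≤ (2 * L + 2) * S.D ^ (-(ε / 2)) * G ^ (n + 1) := by positivity
    rw [expect_comm]
    refine expect_le_of5 _ _ hpos fun i hi => ?_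
    rw [hWd]
    simp only
    rw [expect_comm]
    refine expect_le_of5 _ _ hpos fun l hl => ?_
    have hiT : (i : ℝ) ≤ S.T := by exact_mod_cast (mem_range.1 hi).le
    have hlK : (l : ℝ) ≤ K1 := by exact_mod_cast (mem_range.1 hl).le
    have hqlK : (q : ℝ) * l ≤ S.D := (mul_le_mul_of_nonneg_left hlK hq0.le).trans hqK1
    refine (l1_two59 hf.tv hX0 _ _).trans ?_
    have h5 := adiff59 (c := c) (Fin.last m) (k := S.u + i) (j := q * l) hD1 hG.ρ0 hG.ρ1 hP0.le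
      (by push_cast; have := hG.u1; have : (0 : ℝ) ≤ i := Nat.cast_nonneg _; linarith)
      (by push_cast; have := hG.u2; linarith)
    have h6 : ((q * l : ℕ) : ℝ) / S.D ≤ G ^ n * S.D ^ (-(y / 2)) := by
      rw [div_le_iff₀ hDp]
      push_cast
      calc (q : ℝ) * l ≤ G ^ n * S.D ^ (1 - y / 2) :=
            mul_le_mul hq' (hlK.trans hK1u) (by positivity) (by positivity)
        _ = G ^ n * S.D ^ (-(y / 2)) * S.D := by
            nth_rewrite 3 [← Real.rpow_one S.D]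
            rw [mul_assoc, ← Real.rpow_add hDp]
            congr 2
            ring
    have h7 : |(S.a c (Fin.last m) (S.u + i + q * l) : ℝ) - S.a c (Fin.last m) (S.u + i)| ≤
        L * (S.P (Fin.last m) * (G ^ n * S.D ^ (-(y / 2)))) + 1 :=
      h5.trans (by gcongr)
    have hWn : 0 ≤ δ⁻¹ * (1 / X + 1 / N) := by positivity
    have hWn' : 0 ≤ 1 / X + 1 / (N : ℝ) := by positivity
    calc |(S.a c (Fin.last m) (S.u + i + q * l) : ℝ) - S.a c (Fin.last m) (S.u + i)| *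
          (δ⁻¹ * (1 / X + 1 / N))
        ≤ (L * (S.P (Fin.last m) * (G ^ n * S.D ^ (-(y / 2)))) + 1) * (δ⁻¹ * (1 / X + 1 / N)) :=
          mul_le_mul_of_nonneg_right h7 hWn
      _ ≤ (L * (S.P (Fin.last m) * (G ^ n * S.D ^ (-(y / 2)))) + 1) * (G * (1 / X + 1 / N)) := by
          gcongr
      _ = L * (G ^ (n + 1) * S.D ^ (-(y / 2))) * (S.P (Fin.last m) * (1 / X + 1 / N))
          + G * (1 / X + 1 / N) := by rw [pow_succ]; ring
      _ ≤ L * (G ^ (n + 1) * S.D ^ (-(y / 2))) * (2 * S.D ^ (ε / 2 + 2 * (y / 16)))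
          + G * (2 * S.D ^ (2 * (y / 16) - 2)) := by gcongr
      _ ≤ L * G ^ (n + 1) * (2 * S.D ^ (-(ε / 2))) + G ^ (n + 1) * (2 * S.D ^ (-(ε / 2))) := by
          refine add_le_add ?_ ?_
          · have h8 : L * (G ^ (n + 1) * S.D ^ (-(y / 2))) * (2 * S.D ^ (ε / 2 + 2 * (y / 16))) =
                L * G ^ (n + 1) * (2 * S.D ^ (-(y / 2) + (ε / 2 + 2 * (y / 16)))) := by
              rw [Real.rpow_add hDp (-(y / 2))]; ring
            rw [h8]
            refine mul_le_mul_of_nonneg_left (mul_le_mul_of_nonneg_left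
              (Real.rpow_le_rpow_of_exponent_le hD1 (by linarith)) (by norm_num)) (by positivity)
          · have h9 : G ≤ G ^ (n + 1) := le_self_pow₀ hG1 (by omega)
            refine mul_le_mul h9 (mul_le_mul_of_nonneg_left
              (Real.rpow_le_rpow_of_exponent_le hD1 (by linarith)) (by norm_num)) (by positivity)
              (by positivity)
      _ = (2 * L + 2) * S.D ^ (-(ε / 2)) * G ^ (n + 1) := by ring
  -- the contribution of E1
  have hδnC : δ ^ C1 ≤ δ ^ n := pow_le_pow_of_le_one hδ0.le (by linarith) (by omega)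
  have hGn : G ^ n ≤ G ^ (n + 1) := pow_le_pow_right₀ hG1 (by omega)
  have hGn1 : 1 ≤ G ^ (n + 1) := one_le_pow₀ hG1
  have hmain1 : δ ^ n / 2 ≤ 𝔼 x, (if x ∈ E1 then locCorrq S c q f θ K x else 0) := by
    have h1 := expect_le_expect (s := univ) fun x _ => key x
    rw [expect_add_distrib, expect_add_distrib, expect_const univ_nonempty] at h1
    have h2 := small (8 + 2 * L) (n + 1) (by positivity) le_rfl (by omega)
    have h3 : err ≤ 6 * S.D ^ (-(ε / 2)) * G ^ (n + 1) := by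
      refine err1.trans ?_
      have h4 : S.D ^ (-(ε / 2)) ≤ S.D ^ (-(ε / 2)) * G ^ (n + 1) :=
        le_mul_of_one_le_right hDτ.le hGn1
      have h5 : S.D ^ (-(ε / 2)) * G ^ n ≤ S.D ^ (-(ε / 2)) * G ^ (n + 1) :=
        mul_le_mul_of_nonneg_left hGn hDτ.le
      linarith
    have h4 : (6 * S.D ^ (-(ε / 2)) * G ^ (n + 1)) + (2 * L + 2) * S.D ^ (-(ε / 2)) * G ^ (n + 1) =
        (8 + 2 * L) * S.D ^ (-(ε / 2)) * G ^ (n + 1) := by ring
    linarith
  -- the denominators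
  have hlam1 := hIG.lam1
  have hrat : ∀ x ∈ E1, (∀ i : Fin m, ¬ IsN (c i.castSucc) →
        |θ x i * S.P i.castSucc| ≤ S.D ^ (1 / 16 : ℝ)) ∧
      ∃ q' : ℕ, 1 ≤ q' ∧ (q' : ℝ) ≤ δr⁻¹ ^ Cr ∧ ∀ (i : Fin m) (d : ℕ), c i.castSucc = d →
      dint (q' * ((θ x i * S.P i.castSucc) / (lam * S.D) ^ d)) ≤ S.D ^ ((1 / 16 : ℝ) - d) := by
    intro x hx
    obtain ⟨-, i, hi, hVi⟩ := mem_filter.1 hx
    have hiT : (i : ℝ) ≤ S.T := by exact_mod_cast (mem_range.1 hi).le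
    refine HR S.D hDr S.ρ hG.ρ0 hG.ρ1 lam hlam1 hIG.rho δr ?_ ?_ ?_
      (fun i => θ x i * S.P i.castSucc) ?_ q (S.u + i) K1 hq1 ?_ ?_ ?_ ?_ hqK1 ?_
    · calc S.D ^ (-σr) ≤ S.D ^ (-(σ * (n + 3))) :=
            Real.rpow_le_rpow_of_exponent_le hD1 (by linarith)
        _ = (G⁻¹) ^ (n + 3) := by
            rw [Real.rpow_neg hDp.le, inv_pow, hGpow]
            push_cast
            rfl
        _ ≤ δr := pow_le_pow_left₀ (inv_nonneg.2 hG0.le) hGδ _
    · have : δ ^ n ≤ 1 := pow_le_one₀ hδ0.le (by linarith)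
      linarith
    · rw [hδr, ← inv_pow]
      exact hlam.trans (le_self_pow₀ hδi1 (by omega))
    · intro j
      have h1 := hθ x j
      have h2 := hG.P2 j.castSucc
      have hP : 0 < S.P j.castSucc :=
        lt_of_lt_of_le (mul_pos hQ0 (Real.rpow_pos_of_pos hDp _)) (hG.P1 _)
      rw [abs_mul, abs_of_pos hP]
      have hcj : c j.castSucc ≤ cl := (hcm (Fin.castSucc_lt_last j)).le
      calc |θ x j| * S.P j.castSucc ≤ (δ⁻¹ ^ n / S.Q) * (S.Q * S.D ^ (c j.castSucc + ε / 2)) :=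
            mul_le_mul h1 h2 hP.le (by positivity)
        _ = δ⁻¹ ^ n * S.D ^ (c j.castSucc + ε / 2) := by
            field_simp
        _ ≤ G ^ n * S.D ^ (c j.castSucc + ε / 2) := by gcongr
        _ = S.D ^ (σ * n + (c j.castSucc + ε / 2)) := by rw [hGpow, ← Real.rpow_add hDp]
        _ ≤ S.D ^ (cl + 3) := Real.rpow_le_rpow_of_exponent_le hD1 (by linarith)
    · rw [hδr, ← inv_pow]
      exact hq2.trans (pow_le_pow_right₀ hδi1 (by omega))
    · push_cast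
      have := hG.u1
      have : (0 : ℝ) ≤ i := Nat.cast_nonneg _
      linarith
    · push_cast
      have := hG.u2
      linarith
    · exact (Real.rpow_le_rpow_of_exponent_le hD1 (by linarith)).trans hK1l
    · refine hVi.trans (le_of_eq ?_)
      rw [hV]
      simp only
      congr 1
  have hrat' : ∀ x, ∃ q' : ℕ, x ∈ E1 → (1 ≤ q' ∧ (q' : ℝ) ≤ δr⁻¹ ^ Cr ∧
      ∀ (i : Fin m) (d : ℕ), c i.castSucc = d →
      dint (q' * ((θ x i * S.P i.castSucc) / (lam * S.D) ^ d)) ≤ S.D ^ ((1 / 16 : ℝ) - d)) := by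
    intro x
    by_cases hx : x ∈ E1
    · obtain ⟨q', h1, h2, h3⟩ := (hrat x hx).2
      exact ⟨q', fun _ => ⟨h1, h2, h3⟩⟩
    · exact ⟨0, fun h => absurd h hx⟩
  choose qq hqq using hrat'
  set M := ⌊δr⁻¹ ^ Cr⌋₊ with hM
  have hMle : (M : ℝ) ≤ δr⁻¹ ^ Cr := Nat.floor_le (by positivity)
  -- pigeonhole
  obtain ⟨p, hpmem, hp⟩ : ∃ p ∈ Icc 1 M, δ ^ C1 ≤
      𝔼 x, (if x ∈ E1.filter (fun x => qq x = p) then locCorrq S c q f θ K x else 0) := by
    by_contra hcon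
    push Not at hcon
    have h1 : ∀ x : ZMod N, (if x ∈ E1 then locCorrq S c q f θ K x else 0) =
        ∑ p ∈ Icc 1 M, (if x ∈ E1.filter (fun x => qq x = p) then
          locCorrq S c q f θ K x else 0) := by
      intro x
      by_cases hx : x ∈ E1
      · obtain ⟨a1, a2, -⟩ := hqq x hx
        have hmem : qq x ∈ Icc 1 M := mem_Icc.2 ⟨a1, Nat.le_floor a2⟩
        rw [if_pos hx, Finset.sum_eq_single_of_mem (qq x) hmem]
        · rw [if_pos (show x ∈ E1.filter (fun z => qq z = qq x) from mem_filter.2 ⟨hx, rfl⟩)]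
        · intro b _ hb
          rw [if_neg]
          intro h
          exact hb (mem_filter.1 h).2.symm
      · rw [if_neg hx]
        symm
        refine Finset.sum_eq_zero fun b _ => ?_
        rw [if_neg]
        intro h
        exact hx (mem_filter.1 h).1
    have h2 : 𝔼 x, (if x ∈ E1 then locCorrq S c q f θ K x else 0) =
        ∑ p ∈ Icc 1 M, 𝔼 x, (if x ∈ E1.filter (fun x => qq x = p) then
          locCorrq S c q f θ K x else 0) := by
      rw [expect_congr rfl fun x _ => h1 x, expect_sum_comm]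
    have h3 : ∑ p ∈ Icc 1 M, 𝔼 x, (if x ∈ E1.filter (fun x => qq x = p) then
          locCorrq S c q f θ K x else 0) ≤ M * δ ^ C1 := by
      calc _ ≤ ∑ p ∈ Icc 1 M, δ ^ C1 := Finset.sum_le_sum fun p hp => (hcon p hp).le
        _ = M * δ ^ C1 := by rw [Finset.sum_const, Nat.card_Icc, nsmul_eq_mul, Nat.add_sub_cancel]
    have h4 : (M : ℝ) * δ ^ C1 ≤ δ ^ (n + 1) := by
      calc (M : ℝ) * δ ^ C1 ≤ δr⁻¹ ^ Cr * δ ^ C1 := by gcongr
        _ = δ ^ (n + 1) := by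
            rw [hC1, pow_add, hδr, ← inv_pow, ← pow_mul, inv_pow, mul_comm (δ ^ (n + 1)),
              ← mul_assoc, inv_mul_cancel₀ (pow_ne_zero _ hδ0.ne'), one_mul]
    have h5 : δ ^ (n + 1) ≤ δ ^ n / 2 := by
      rw [pow_succ]
      have h9 := mul_le_mul_of_nonneg_left hδ2 (pow_pos hδ0 n).le
      linarith
    have hMpos : (Icc 1 M).Nonempty := by
      rw [Finset.nonempty_iff_ne_empty]
      intro h0
      rw [h0, Finset.sum_empty] at h2
      rw [h2] at hmain1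
      have := pow_pos hδ0 n
      linarith
    have h6 : ∑ p ∈ Icc 1 M, 𝔼 x, (if x ∈ E1.filter (fun x => qq x = p) then
          locCorrq S c q f θ K x else 0) < M * δ ^ C1 := by
      calc _ < ∑ p ∈ Icc 1 M, δ ^ C1 := Finset.sum_lt_sum_of_nonempty hMpos hcon
        _ = M * δ ^ C1 := by rw [Finset.sum_const, Nat.card_Icc, nsmul_eq_mul, Nat.add_sub_cancel]
    linarith
  obtain ⟨hp1, hpM⟩ := mem_Icc.1 hpmem
  have hp0 : (0 : ℝ) < p := by exact_mod_cast hp1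
  have hpr : (p : ℝ) ≤ δr⁻¹ ^ Cr := le_trans (by exact_mod_cast hpM) hMle
  have hpδ : (p : ℝ) ≤ δ⁻¹ ^ ((n + 3) * Cr) := by
    rw [pow_mul]
    rwa [hδr, ← inv_pow] at hpr
  have hpG : (p : ℝ) ≤ G ^ ((n + 3) * Cr) := hpδ.trans (pow_le_pow_left₀ (by positivity) hδG _)
  set E2 := E1.filter (fun x => qq x = p) with hE2
  refine ⟨q * p, Nat.mul_pos hq1 hp1, ?_, fun x => th59 S c p (θ x), E2, ?_, ?_⟩
  · push_cast
    calc (q : ℝ) * p ≤ δ⁻¹ ^ n * δ⁻¹ ^ ((n + 3) * Cr) :=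
          mul_le_mul hq2 hpδ hp0.le (by positivity)
      _ = δ⁻¹ ^ (n + (n + 3) * Cr) := by rw [pow_add]
      _ ≤ _ := pow_le_pow_right₀ hδi1 (by omega)
  · intro x hx i
    obtain ⟨hx1, hxp⟩ := mem_filter.1 hx
    change |th59 S c p (θ x) i * S.P i.castSucc| ≤ _
    have hP : 0 < S.P i.castSucc :=
      lt_of_lt_of_le (mul_pos hQ0 (Real.rpow_pos_of_pos hDp _)) (hG.P1 _)
    by_cases hNat : IsN (c i.castSucc)
    · obtain ⟨d, hd⟩ := hNat
      obtain ⟨-, -, h3⟩ := hqq x hx1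
      have h4 := h3 i d hd
      rw [hxp, hIG.Pint _ d hd] at h4
      have hlD : (0 : ℝ) < (lam * S.D) ^ d := by
        have : (0 : ℝ) < lam := by exact_mod_cast hlam1
        positivity
      have h5 : θ x i * (S.Q * (lam * S.D) ^ d) / (lam * S.D) ^ d = θ x i * S.Q := by
        rw [← mul_assoc, mul_div_cancel_right₀ _ hlD.ne']
      rw [h5] at h4
      unfold dint at h4
      have h6 : th59 S c p (θ x) i = θ x i - (round (p * (θ x i * S.Q)) : ℝ) / p / S.Q := by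
        unfold th59
        rw [if_pos ⟨d, hd⟩]
      rw [h6, hIG.Pint _ d hd]
      have h7 : (θ x i - (round (p * (θ x i * S.Q)) : ℝ) / p / S.Q) * (S.Q * (lam * S.D) ^ d) =
          (p * (θ x i * S.Q) - round (p * (θ x i * S.Q))) / p * (lam * S.D) ^ d := by
        field_simp
      rw [h7, abs_mul, abs_div, abs_of_pos hp0, abs_of_pos hlD]
      have h8 : |p * (θ x i * S.Q) - round (p * (θ x i * S.Q))| / p ≤ S.D ^ ((1 / 16 : ℝ) - d) := by
        rw [div_le_iff₀ hp0]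
        have : (1 : ℝ) ≤ p := by exact_mod_cast hp1
        exact h4.trans (le_mul_of_one_le_right (Real.rpow_nonneg hDp.le _) this)
      have hcj : c i.castSucc ≤ cl := (hcm (Fin.castSucc_lt_last i)).le
      calc |p * (θ x i * S.Q) - round (p * (θ x i * S.Q))| / p * (lam * S.D) ^ d
          ≤ S.D ^ ((1 / 16 : ℝ) - d) * (lam * S.D) ^ d := mul_le_mul_of_nonneg_right h8 hlD.le
        _ = S.D ^ (1 / 16 : ℝ) * (lam : ℝ) ^ d := by
            rw [mul_pow, Real.rpow_sub hDp, Real.rpow_natCast]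
            have : S.D ^ d ≠ 0 := pow_ne_zero _ hDp.ne'
            field_simp
        _ ≤ S.D ^ (1 / 16 : ℝ) * G ^ d := by
            have := hlam.trans hδG
            gcongr
        _ = S.D ^ (1 / 16 + σ * d) := by rw [hGpow, ← Real.rpow_add hDp]
        _ ≤ S.D ^ (1 / 4 : ℝ) := by
            refine Real.rpow_le_rpow_of_exponent_le hD1 ?_
            have : σ * d ≤ σ * cl := mul_le_mul_of_nonneg_left (by rw [← hd]; exact hcj) hσ0.le
            linarith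
    · have h6 : th59 S c p (θ x) i = θ x i := by
        unfold th59
        rw [if_neg hNat]
      rw [h6]
      exact ((hrat x hx1).1 i hNat).trans
        (Real.rpow_le_rpow_of_exponent_le hD1 (by norm_num))
  · intro K2 hK21 hK2u
    have h1 : ∀ x, (if x ∈ E2 then locCorrq S c q f θ K x else 0) ≤
        (if x ∈ E2 then locCorrq S c (q * p) f (fun x => th59 S c p (θ x)) K2 x else 0) +
        (2 * (p * K2) / K + 2 * (q * K) / S.T) := by
      intro x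
      by_cases hx : x ∈ E2
      · rw [if_pos hx, if_pos hx, ← locCorrq_change59 hIG hDp hQ0 f θ q p K2 hp1 x]
        exact locCorrq_le59 f hf.bdd θ q p K K2 hKone hK21 x
      · rw [if_neg hx, if_neg hx]
        positivity
    have h2 := expect_le_expect (s := univ) fun x _ => h1 x
    rw [expect_add_distrib, expect_const univ_nonempty] at h2
    have h3 : 2 * ((p : ℝ) * K2) / K ≤ 4 * S.D ^ (-(ε / 2)) * G ^ ((n + 3) * Cr) := by
      calc 2 * ((p : ℝ) * K2) / K = 2 * p * (K2 / K) := by ring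
        _ ≤ 2 * G ^ ((n + 3) * Cr) * (S.D ^ (1 - 2 * ε) / K) := by gcongr
        _ ≤ 2 * G ^ ((n + 3) * Cr) * (2 * S.D ^ (1 - 2 * ε - (1 - ε))) :=
            mul_le_mul_of_nonneg_left (hKinv _) (by positivity)
        _ ≤ 2 * G ^ ((n + 3) * Cr) * (2 * S.D ^ (-(ε / 2))) := by
            refine mul_le_mul_of_nonneg_left (mul_le_mul_of_nonneg_left
              (Real.rpow_le_rpow_of_exponent_le hD1 (by linarith)) (by norm_num)) (by positivity)
        _ = _ := by ring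
    have h4 : 2 * ((q : ℝ) * K) / S.T ≤ 2 * S.D ^ (-(ε / 2)) * G ^ n := by
      rw [mul_div_assoc, mul_assoc]
      exact mul_le_mul_of_nonneg_left hqKT (by norm_num)
    have h5 := small 4 ((n + 3) * Cr) (by norm_num) (by linarith) (by omega)
    have h6 := small 2 n (by norm_num) (by linarith) (by omega)
    have h7 : δ ^ (C1 + 1) ≤ δ ^ C1 / 2 := by
      rw [pow_succ]
      have h9 := mul_le_mul_of_nonneg_left hδ2 hδC0.le
      linarith
    linarith

end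

end Pool.Agent.Helper67.NX2
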